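import Pool.Agent.H89.Kap.Game

/-!
# Kaplansky's line game, 4 against 5: the attack

From a triangle `P, Q, R` of own stones with `PQ` free of opposing stones `F` checks with
`X = P + T (Q - P)`, `Y = R + j (X - R)`, `Z = P + T (Y - P)` and then doubles with
`V = R + j (Z - R) = Q + (1 + j T) (Y - Q)`.
-/

set_option autoImplicit false

open Filter Finset

namespace Pool.Agent.H89.Kap

lemma line_iff (P Q z : ℤ × ℤ) :
    (-(Q.2 - P.2)) * z.1 + (Q.1 - P.1) * z.2 = (-(Q.2 - P.2)) * P.1 + (Q.1 - P.1) * P.2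
      ↔ D P Q z = 0 := by
  simp only [D]
  constructor <;> intro h <;> linarith

lemma line_ne {P Q : ℤ × ℤ} (h : P ≠ Q) : -(Q.2 - P.2) ≠ 0 ∨ Q.1 - P.1 ≠ 0 := by
  by_contra hc
  push Not at hc
  exact h (Prod.ext (by linarith [hc.2]) (by linarith [hc.1]))

lemma checkD {n : ℕ} {A B : Finset (ℤ × ℤ)} {P Q q : ℤ × ℤ} (hPQ : P ≠ Q) (hP : P ∈ A)
    (hQ : Q ∈ A) (hq : q ∉ A) (oq : D P Q q = 0) (hB : ∀ z ∈ B, D P Q z ≠ 0) (h4 : ¬ Won 4 B A)
    (H : ∀ s, D P Q s = 0 → s ∉ insert q A → s ∉ B →
      FWin (n + 1) (insert q A) (insert s B)) : FWin (n + 2) A B :=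
  check (line_ne hPQ) hP hQ hPQ hq ((line_iff P Q P).mpr (D_self1 P Q))
    ((line_iff P Q Q).mpr (D_self2 P Q)) ((line_iff P Q q).mpr oq)
    (fun z hz h => hB z hz ((line_iff P Q z).mp h)) h4
    (fun s hs => H s ((line_iff P Q s).mp hs))

lemma doubleD {A B : Finset (ℤ × ℤ)} {P Q P' Q' q : ℤ × ℤ} (hPQ : P ≠ Q) (hPQ' : P' ≠ Q')
    (hP : P ∈ A) (hQ : Q ∈ A) (hP' : P' ∈ A) (hQ' : Q' ∈ A) (hq : q ∉ A) (oq : D P Q q = 0)
    (oq' : D P' Q' q = 0) (hB : ∀ z ∈ B, D P Q z ≠ 0) (hB' : ∀ z ∈ B, D P' Q' z ≠ 0)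
    (hX : ∀ s, D P Q s = 0 → D P' Q' s = 0 → s = q) (h4 : ¬ Won 4 B A) : FWin 2 A B :=
  double (line_ne hPQ) (line_ne hPQ') hP hQ hPQ hP' hQ' hPQ' hq
    ((line_iff P Q P).mpr (D_self1 P Q)) ((line_iff P Q Q).mpr (D_self2 P Q))
    ((line_iff P Q q).mpr oq) ((line_iff P' Q' P').mpr (D_self1 P' Q'))
    ((line_iff P' Q' Q').mpr (D_self2 P' Q')) ((line_iff P' Q' q).mpr oq')
    (fun z hz h => hB z hz ((line_iff P Q z).mp h))
    (fun z hz h => hB' z hz ((line_iff P' Q' z).mp h))
    (fun s h h' => hX s ((line_iff P Q s).mp h) ((line_iff P' Q' s).mp h')) h4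

/-- Two non-parallel lines have at most one common point. -/
lemma inter {P Q R S x y : ℤ × ℤ} (h : D P Q R ≠ D P Q S) (h1 : D P Q x = 0) (h2 : D P Q y = 0)
    (h3 : D R S x = 0) (h4 : D R S y = 0) : x = y := by
  have hne : D P Q S - D P Q R ≠ 0 := fun h' => h (by linarith)
  have e1 : (D P Q S - D P Q R) * (x.1 - y.1) = 0 := by
    have : (D P Q S - D P Q R) * (x.1 - y.1)
        = (D P Q x - D P Q y) * (S.1 - R.1) - (D R S x - D R S y) * (Q.1 - P.1) := by
      simp only [D]; ring
    rw [this, h1, h2, h3, h4]; ring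
  have e2 : (D P Q S - D P Q R) * (x.2 - y.2) = 0 := by
    have : (D P Q S - D P Q R) * (x.2 - y.2)
        = (D P Q x - D P Q y) * (S.2 - R.2) - (D R S x - D R S y) * (Q.2 - P.2) := by
      simp only [D]; ring
    rw [this, h1, h2, h3, h4]; ring
  have f1 := (mul_eq_zero.mp e1).resolve_left hne
  have f2 := (mul_eq_zero.mp e2).resolve_left hne
  exact Prod.ext (by linarith) (by linarith)

lemma par_eq {P Q x s s' : ℤ × ℤ} (hPQ : P ≠ Q) (hx : D P Q x = 0)
    (h : D s s' P = D s s' Q) : D s s' x = D s s' P := by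
  have hL : D s s' Q - D s s' P = 0 := by linarith
  have e1 : (Q.1 - P.1) * (D s s' x - D s s' P) = 0 := by
    have : (Q.1 - P.1) * (D s s' x - D s s' P)
        = (s'.1 - s.1) * D P Q x + (x.1 - P.1) * (D s s' Q - D s s' P) := by
      simp only [D]; ring
    rw [this, hx, hL]; ring
  have e2 : (Q.2 - P.2) * (D s s' x - D s s' P) = 0 := by
    have : (Q.2 - P.2) * (D s s' x - D s s' P)
        = (s'.2 - s.2) * D P Q x + (x.2 - P.2) * (D s s' Q - D s s' P) := by
      simp only [D]; ring
    rw [this, hx, hL]; ring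
  rcases mul_eq_zero.mp e1 with h1 | h1
  · rcases mul_eq_zero.mp e2 with h2 | h2
    · exact absurd (Prod.ext (by linarith) (by linarith)) hPQ
    · linarith
  · linarith

/-- The indicator of a line. -/
def ind (a b c : ℤ) (x : ℤ × ℤ) : ℕ := if a * x.1 + b * x.2 = c then 1 else 0

lemma card_ins (a b c : ℤ) (x : ℤ × ℤ) (S : Finset (ℤ × ℤ)) :
    ((insert x S).filter (fun z => a * z.1 + b * z.2 = c)).card
      ≤ (S.filter (fun z => a * z.1 + b * z.2 = c)).card + ind a b c x := by
  rw [filter_insert]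
  unfold ind
  split_ifs
  · exact card_insert_le _ _
  · omega

lemma ind_le (a b c : ℤ) (x : ℤ × ℤ) : ind a b c x ≤ 1 := by
  unfold ind; split_ifs <;> omega

lemma ind_zero {a b c : ℤ} {x : ℤ × ℤ} (h : a * x.1 + b * x.2 ≠ c) : ind a b c x = 0 := by
  unfold ind; rw [if_neg h]

lemma ind_one {a b c : ℤ} {x : ℤ × ℤ} (h : ind a b c x ≠ 0) : a * x.1 + b * x.2 = c := by
  by_contra hc; exact h (ind_zero hc)

/-- Hypothesis on the opposing stones `S` before the attack: a line free of `P, Q, R` with three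
points of `S` has exactly three, is not parallel to `PQ` and meets it in no lattice point. -/
def Tame (P Q R : ℤ × ℤ) (S : Finset (ℤ × ℤ)) : Prop :=
  ∀ a b c : ℤ, (a ≠ 0 ∨ b ≠ 0) → a * P.1 + b * P.2 ≠ c → a * Q.1 + b * Q.2 ≠ c →
    a * R.1 + b * R.2 ≠ c → 3 ≤ (S.filter (fun z => a * z.1 + b * z.2 = c)).card →
    (S.filter (fun z => a * z.1 + b * z.2 = c)).card ≤ 3 ∧
      a * P.1 + b * P.2 ≠ a * Q.1 + b * Q.2 ∧
      ∀ z : ℤ × ℤ, D P Q z = 0 → a * z.1 + b * z.2 ≠ c

/-- The count for lines with two stones of `S`, after the replies `x` on `PQ` and `y` on `RX`. -/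
lemma two_count {P Q R X x y : ℤ × ℤ} {S : Finset (ℤ × ℤ)} (hPQ : P ≠ Q) (hT : Tame P Q R S)
    (hx : D P Q x = 0) (hy : D R X y = 0)
    (hT4 : ∀ s ∈ S, ∀ s' ∈ S, s ≠ s' → D s s' R ≠ 0 → D s s' P ≠ D s s' Q →
      ∀ y, D R X y = 0 → D s s' y ≠ 0)
    {a b c : ℤ} (hab : a ≠ 0 ∨ b ≠ 0) (oP : a * P.1 + b * P.2 ≠ c) (oQ : a * Q.1 + b * Q.2 ≠ c)
    (oR : a * R.1 + b * R.2 ≠ c)
    (h2 : 2 ≤ (S.filter (fun z => a * z.1 + b * z.2 = c)).card) :
    (S.filter (fun z => a * z.1 + b * z.2 = c)).card + ind a b c x + ind a b c y ≤ 3 := by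
  obtain ⟨s, hs, s', hs', hss⟩ := Finset.one_lt_card.mp (show 1 < _ from h2)
  rw [mem_filter] at hs hs'
  have hon := on_iff hab hss hs.2 hs'.2
  have dP : D s s' P ≠ 0 := fun h => oP ((hon P).mpr h)
  have dR : D s s' R ≠ 0 := fun h => oR ((hon R).mpr h)
  have bx := ind_le a b c x
  have bY := ind_le a b c y
  by_cases hpar : D s s' P = D s s' Q
  · -- parallel to `PQ`: `x` is not on the line and the line has only two stones of `S`
    have hx0 : ind a b c x = 0 := by
      apply ind_zero
      intro h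
      have h' := (hon x).mp h
      rw [par_eq hPQ hx hpar] at h'
      exact dP h'
    have hlt : (S.filter (fun z => a * z.1 + b * z.2 = c)).card < 3 := by
      by_contra hge
      push Not at hge
      obtain ⟨_, hnp, _⟩ := hT a b c hab oP oQ oR hge
      apply hnp
      have e : a * (s'.1 - s.1) + b * (s'.2 - s.2) = 0 := by linarith [hs.2, hs'.2]
      have hL : (s'.1 - s.1) * (Q.2 - P.2) - (s'.2 - s.2) * (Q.1 - P.1) = 0 := by
        have : D s s' Q - D s s' P = (s'.1 - s.1) * (Q.2 - P.2) - (s'.2 - s.2) * (Q.1 - P.1) := by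
          simp only [D]; ring
        rw [← this, hpar]; ring
      have hne : s'.1 - s.1 ≠ 0 ∨ s'.2 - s.2 ≠ 0 := by
        by_contra hc
        push Not at hc
        exact hss (Prod.ext (by linarith [hc.1]) (by linarith [hc.2]))
      have : a * (Q.1 - P.1) + b * (Q.2 - P.2) = 0 := by
        rcases hne with h1 | h1
        · have : (s'.1 - s.1) * (a * (Q.1 - P.1) + b * (Q.2 - P.2)) = 0 := by
            have : (s'.1 - s.1) * (a * (Q.1 - P.1) + b * (Q.2 - P.2))
              = (a * (s'.1 - s.1) + b * (s'.2 - s.2)) * (Q.1 - P.1)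
              + b * ((s'.1 - s.1) * (Q.2 - P.2) - (s'.2 - s.2) * (Q.1 - P.1)) := by ring
            rw [this, e, hL]; ring
          exact (mul_eq_zero.mp this).resolve_left h1
        · have : (s'.2 - s.2) * (a * (Q.1 - P.1) + b * (Q.2 - P.2)) = 0 := by
            have : (s'.2 - s.2) * (a * (Q.1 - P.1) + b * (Q.2 - P.2))
              = (a * (s'.1 - s.1) + b * (s'.2 - s.2)) * (Q.2 - P.2)
              - a * ((s'.1 - s.1) * (Q.2 - P.2) - (s'.2 - s.2) * (Q.1 - P.1)) := by ring
            rw [this, e, hL]; ring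
          exact (mul_eq_zero.mp this).resolve_left h1
      linarith
    omega
  · have hy0 : ind a b c y = 0 := by
      apply ind_zero
      intro h
      exact hT4 s hs.1 s' hs'.1 hss dR hpar y hy ((hon y).mp h)
    by_cases h3 : 3 ≤ (S.filter (fun z => a * z.1 + b * z.2 = c)).card
    · obtain ⟨h3', _, hno⟩ := hT a b c hab oP oQ oR h3
      have hx0 : ind a b c x = 0 := ind_zero (hno x hx)
      omega
    · omega

/-- **The attack.** -/
lemma attack {P Q R : ℤ × ℤ} {S : Finset (ℤ × ℤ)} (hD : D P Q R ≠ 0) (hP : P ∉ S) (hQ : Q ∉ S)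
    (hR : R ∉ S) (hfree : ∀ s ∈ S, D P Q s ≠ 0) (hT : Tame P Q R S) :
    FWin 5 {P, Q, R} S := by
  have hPQ : P ≠ Q := by
    rintro rfl; exact hD (D_self3 _ _)
  have hPR : P ≠ R := by
    rintro rfl; exact hD (D_self1 _ _)
  have hQR : Q ≠ R := by
    rintro rfl; exact hD (D_self2 _ _)
  have hRPQ : D R P Q ≠ 0 := by
    rw [show D R P Q = D P Q R by simp only [D]; ring]; exact hD
  -- the choice of `T`
  have evT : ∀ᶠ T : ℤ in atTop, 1 < T ∧ (∀ s ∈ S, D R (pt P Q T) s ≠ 0) ∧
      (∀ s ∈ S, ∀ s' ∈ S, s ≠ s' → D s s' (pt P Q T) ≠ D s s' R) ∧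
      (∀ s ∈ S, ∀ s' ∈ S, s ≠ s' → D s s' R ≠ 0 → D s s' P ≠ D s s' Q →
        ∀ y, D R (pt P Q T) y = 0 → D s s' y ≠ 0) := by
    refine (ev_gt 1).and (Eventually.and ?_ (Eventually.and ?_ ?_))
    · rw [Finset.eventually_all]
      intro s hs
      exact ev_ne hRPQ (fun h => hR (h ▸ hs))
    · rw [Finset.eventually_all]
      intro s hs
      rw [Finset.eventually_all]
      intro s' hs'
      by_cases hss : s = s'
      · exact Eventually.of_forall fun T h => absurd hss h
      · have := ev_par (O := R) (G0 := P) (G1 := Q) (not_both_par hD hss)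
        filter_upwards [this] with T hT' _
        exact hT'
    · rw [Finset.eventually_all]
      intro s hs
      rw [Finset.eventually_all]
      intro s' hs'
      by_cases hss : s = s'
      · exact Eventually.of_forall fun T h => absurd hss h
      by_cases h1 : D s s' R = 0
      · exact Eventually.of_forall fun T _ h => absurd h1 h
      by_cases h2 : D s s' P = D s s' Q
      · exact Eventually.of_forall fun T _ _ h => absurd h2 h
      · filter_upwards [far hRPQ h1 h2] with T hT' _ _ _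
        exact hT'
  obtain ⟨T, hT1, hT2, hT3, hT4⟩ := evT.exists
  set X := pt P Q T with hX
  have hT0 : T ≠ 0 := by omega
  have hT1' : T - 1 ≠ 0 := by omega
  -- facts about `X`
  have dPQX : D P Q X = 0 := by simp only [hX, D, pt]; ring
  have dRXP : D R X P ≠ 0 := by
    rw [show D R X P = - (T * D P Q R) by simp only [hX, D, pt]; ring]
    exact neg_ne_zero.mpr (mul_ne_zero hT0 hD)
  have dRXQ : D R X Q ≠ 0 := by
    rw [show D R X Q = - ((T - 1) * D P Q R) by simp only [hX, D, pt]; ring]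
    exact neg_ne_zero.mpr (mul_ne_zero hT1' hD)
  have hXR : R ≠ X := by
    intro h; rw [← h] at dPQX; exact hD dPQX
  have hXP : X ≠ P := by
    intro h; rw [h] at dRXP; exact dRXP (D_self2 _ _)
  have hXQ : X ≠ Q := by
    intro h; rw [h] at dRXQ; exact dRXQ (D_self2 _ _)
  have hXA : X ∉ ({P, Q, R} : Finset (ℤ × ℤ)) := by
    simp only [mem_insert, mem_singleton, not_or]
    exact ⟨hXP, hXQ, hXR.symm⟩
  -- no four before the first check
  have h40 : ¬ Won 4 S {P, Q, R} := by
    rintro ⟨a, b, c, hab, hk, hoff⟩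
    have := (hT a b c hab (hoff P (by simp)) (hoff Q (by simp)) (hoff R (by simp)) (by omega)).1
    omega
  refine checkD (n := 3) hPQ (by simp) (by simp) hXA dPQX hfree h40 ?_
  intro x hx hxA hxS
  simp only [mem_insert, mem_singleton, not_or] at hxA
  obtain ⟨hxX, hxP, hxQ, hxR⟩ := hxA
  have hPRX : D P R X ≠ 0 := by
    rw [show D P R X = - (T * D P Q R) by simp only [hX, D, pt]; ring]
    exact neg_ne_zero.mpr (mul_ne_zero hT0 hD)
  have hQRX : D Q R X ≠ 0 := by
    rw [show D Q R X = - ((T - 1) * D P Q R) by simp only [hX, D, pt]; ring]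
    exact neg_ne_zero.mpr (mul_ne_zero hT1' hD)
  have hZ01 : D R (pt P R T) (pt P X T) ≠ 0 := by
    rw [show D R (pt P R T) (pt P X T) = - ((T - 1) * (T * (T * D P Q R))) by
      simp only [hX, D, pt]; ring]
    exact neg_ne_zero.mpr (mul_ne_zero hT1' (mul_ne_zero hT0 (mul_ne_zero hT0 hD)))
  -- the choice of `j`
  have evJ : ∀ᶠ j : ℤ in atTop, 1 < j ∧ (∀ s ∈ S, D P (pt R X j) s ≠ 0) ∧
      (∀ s ∈ S, D Q (pt R X j) s ≠ 0) ∧
      (∀ s ∈ insert x S, D R (pt (pt P R T) (pt P X T) j) s ≠ 0) ∧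
      (∀ s ∈ insert x S, ∀ s' ∈ insert x S, s ≠ s' → D s s' P ≠ 0 → D s s' R ≠ D s s' X →
        ∀ z, D P (pt R X j) z = 0 → D s s' z ≠ 0) := by
    refine (ev_gt 1).and (Eventually.and ?_ (Eventually.and ?_ (Eventually.and ?_ ?_)))
    · rw [Finset.eventually_all]
      intro s hs
      exact ev_ne hPRX (fun h => hP (h ▸ hs))
    · rw [Finset.eventually_all]
      intro s hs
      exact ev_ne hQRX (fun h => hQ (h ▸ hs))
    · rw [Finset.eventually_all]
      intro s hs
      refine ev_ne hZ01 ?_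
      rcases mem_insert.mp hs with rfl | hs
      · exact hxR
      · exact fun h => hR (h ▸ hs)
    · rw [Finset.eventually_all]
      intro s hs
      rw [Finset.eventually_all]
      intro s' hs'
      by_cases hss : s = s'
      · exact Eventually.of_forall fun T h => absurd hss h
      by_cases h1 : D s s' P = 0
      · exact Eventually.of_forall fun T _ h => absurd h1 h
      by_cases h2 : D s s' R = D s s' X
      · exact Eventually.of_forall fun T _ _ h => absurd h2 h
      · filter_upwards [far hPRX h1 h2] with T hT' _ _ _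
        exact hT'
  obtain ⟨j, hj1, hJ2, hJ3, hJ4, hJ5⟩ := evJ.exists
  have hj0 : j ≠ 0 := by omega
  have hj1' : j - 1 ≠ 0 := by omega
  set Y := pt R X j with hY
  -- facts about `Y`
  have dRXY : D R X Y = 0 := by simp only [hY, D, pt]; ring
  have dPQY : D P Q Y ≠ 0 := by
    rw [show D P Q Y = - ((j - 1) * D P Q R) by simp only [hY, hX, D, pt]; ring]
    exact neg_ne_zero.mpr (mul_ne_zero hj1' hD)
  have dPYX : D P Y X ≠ 0 := by
    rw [show D P Y X = (j - 1) * (T * D P Q R) by simp only [hY, hX, D, pt]; ring]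
    exact mul_ne_zero hj1' (mul_ne_zero hT0 hD)
  have dPYQ : D P Y Q ≠ 0 := by
    rw [show D P Y Q = (j - 1) * D P Q R by simp only [hY, hX, D, pt]; ring]
    exact mul_ne_zero hj1' hD
  have dPYR : D P Y R ≠ 0 := by
    rw [show D P Y R = j * (T * D P Q R) by simp only [hY, hX, D, pt]; ring]
    exact mul_ne_zero hj0 (mul_ne_zero hT0 hD)
  have hYP : Y ≠ P := by
    intro h; rw [h] at dRXY; exact dRXP dRXY
  have hYQ : Y ≠ Q := by
    intro h; rw [h] at dRXY; exact dRXQ dRXY
  have hYR : Y ≠ R := by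
    intro h; rw [h] at dPYR; exact dPYR (D_self2 _ _)
  have hYX : Y ≠ X := by
    intro h; rw [h] at dPYX; exact dPYX (D_self2 _ _)
  have hYA : Y ∉ insert X ({P, Q, R} : Finset (ℤ × ℤ)) := by
    simp only [mem_insert, mem_singleton, not_or]
    exact ⟨hYX, hYP, hYQ, hYR⟩
  have hB1 : ∀ z ∈ insert x S, D R X z ≠ 0 := by
    intro z hz
    rcases mem_insert.mp hz with rfl | hz
    · intro h
      exact hxX (inter (P := P) (Q := Q) (R := R) (S := X) (by rw [dPQX]; exact hD) hx dPQX h
        (D_self2 _ _))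
    · exact hT2 z hz
  have h41 : ¬ Won 4 (insert x S) (insert X {P, Q, R}) := by
    rintro ⟨a, b, c, hab, hk, hoff⟩
    have h1 := card_ins a b c x S
    have h2 := ind_le a b c x
    obtain ⟨h3, _, h5⟩ := hT a b c hab (hoff P (by simp)) (hoff Q (by simp)) (hoff R (by simp))
      (by omega)
    have := ind_zero (h5 x hx)
    omega
  refine checkD (n := 2) hXR (by simp) (by simp) hYA dRXY hB1 h41 ?_
  intro y hy hyA hyB
  simp only [mem_insert, mem_singleton, not_or] at hyA hyB
  obtain ⟨hyY, hyX, hyP, hyQ, hyR⟩ := hyA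
  obtain ⟨hyx, hyS⟩ := hyB
  set Z := pt P Y T with hZ
  have hZ' : Z = pt (pt P R T) (pt P X T) j := by
    rw [hZ, hY]
    simp only [pt]
    refine Prod.ext ?_ ?_
    · simp only; ring
    · simp only; ring
  rw [← hZ'] at hJ4
  -- facts about `Z`
  have dPYZ : D P Y Z = 0 := by simp only [hZ, D, pt]; ring
  have dRZX : D R Z X ≠ 0 := by
    rw [show D R Z X = - ((T - 1) * (T * D P Q R)) by simp only [hZ, hY, hX, D, pt]; ring]
    exact neg_ne_zero.mpr (mul_ne_zero hT1' (mul_ne_zero hT0 hD))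
  have dRZP : D R Z P ≠ 0 := by
    rw [show D R Z P = - (T * (j * (T * D P Q R))) by simp only [hZ, hY, hX, D, pt]; ring]
    exact neg_ne_zero.mpr (mul_ne_zero hT0 (mul_ne_zero hj0 (mul_ne_zero hT0 hD)))
  have dRXZ : D R X Z ≠ 0 := by
    intro h; exact dRZX (by rw [D_swap', h]; ring)
  have hZP : Z ≠ P := by
    intro h; rw [h] at dRZP; exact dRZP (D_self2 _ _)
  have hZX : Z ≠ X := by
    intro h; rw [h] at dPYZ; exact dPYX dPYZ
  have hZQ : Z ≠ Q := by
    intro h; rw [h] at dPYZ; exact dPYQ dPYZ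
  have hZR : Z ≠ R := by
    intro h; rw [h] at dPYZ; exact dPYR dPYZ
  have hZY : Z ≠ Y := by
    intro h; rw [h] at dRXZ; exact dRXZ dRXY
  have hZA : Z ∉ insert Y (insert X ({P, Q, R} : Finset (ℤ × ℤ))) := by
    simp only [mem_insert, mem_singleton, not_or]
    exact ⟨hZY, hZX, hZP, hZQ, hZR⟩
  have hB2 : ∀ z ∈ insert y (insert x S), D P Y z ≠ 0 := by
    intro z hz
    rcases mem_insert.mp hz with rfl | hz
    · intro h
      exact hyY (inter (P := R) (Q := X) (R := P) (S := Y) (by rw [dRXY]; exact dRXP) hy dRXY h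
        (D_self2 _ _))
    rcases mem_insert.mp hz with rfl | hz
    · intro h
      exact hxP (inter (P := P) (Q := Q) (R := P) (S := Y)
        (by rw [D_self1]; exact dPQY.symm) hx (D_self1 _ _) h (D_self1 _ _))
    · exact hJ2 z hz
  have h42 : ¬ Won 4 (insert y (insert x S)) (insert Y (insert X {P, Q, R})) := by
    rintro ⟨a, b, c, hab, hk, hoff⟩
    have h1 := card_ins a b c x S
    have h2 := card_ins a b c y (insert x S)
    have i1 := ind_le a b c x
    have i2 := ind_le a b c y
    have := two_count hPQ hT hx hy hT4 hab (hoff P (by simp)) (hoff Q (by simp))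
      (hoff R (by simp)) (by omega)
    omega
  refine checkD (n := 1) hYP.symm (by simp) (by simp) hZA dPYZ hB2 h42 ?_
  intro z hz hzA hzB
  simp only [mem_insert, mem_singleton, not_or] at hzA hzB
  obtain ⟨hzZ, hzY, hzX, hzP, hzQ, hzR⟩ := hzA
  obtain ⟨hzy, hzx, hzS⟩ := hzB
  set V := pt R Z j with hV
  have hV' : V = pt Q Y (1 + j * T) := by
    rw [hV, hZ, hY, hX]
    simp only [pt]
    refine Prod.ext ?_ ?_
    · simp only; ring
    · simp only; ring
  have dRZV : D R Z V = 0 := by simp only [hV, D, pt]; ring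
  have dQYV : D Q Y V = 0 := by rw [hV']; simp only [D, pt]; ring
  -- `RZ` and `QY` are not parallel
  have dne : D R Z Q ≠ D R Z Y := by
    intro h
    have : D R Z Q - D R Z Y = - ((T - 1) * D P Q R) := by simp only [hZ, hY, hX, D, pt]; ring
    rw [h, sub_self] at this
    have h' := mul_ne_zero hT1' hD
    apply h'
    linarith
  have dRZQY : D R Z Q ≠ 0 ∨ D R Z Y ≠ 0 := by
    by_contra hc
    push Not at hc
    exact dne (hc.1.trans hc.2.symm)
  have dPYR' : D P Y R ≠ D P Y Z := by rw [dPYZ]; exact dPYR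
  have hVR : V ≠ R := by
    intro h
    have h1 : j * (Z.1 - R.1) = 0 := by
      have := congrArg Prod.fst h
      simp only [hV, pt] at this
      linarith
    have h2 : j * (Z.2 - R.2) = 0 := by
      have := congrArg Prod.snd h
      simp only [hV, pt] at this
      linarith
    have h1' := (mul_eq_zero.mp h1).resolve_left hj0
    have h2' := (mul_eq_zero.mp h2).resolve_left hj0
    exact hZR (Prod.ext (by linarith) (by linarith))
  have hVZ : V ≠ Z := by
    intro h
    have h1 : (j - 1) * (Z.1 - R.1) = 0 := by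
      have := congrArg Prod.fst h
      simp only [hV, pt] at this
      linarith
    have h2 : (j - 1) * (Z.2 - R.2) = 0 := by
      have := congrArg Prod.snd h
      simp only [hV, pt] at this
      linarith
    have h1' := (mul_eq_zero.mp h1).resolve_left hj1'
    have h2' := (mul_eq_zero.mp h2).resolve_left hj1'
    exact hZR (Prod.ext (by linarith) (by linarith))
  have hjT : j * T ≠ 0 := mul_ne_zero hj0 hT0
  have hjT1 : 1 + j * T ≠ 0 := by nlinarith
  have hVQ : V ≠ Q := by
    intro h
    rw [hV'] at h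
    have h1 : (1 + j * T) * (Y.1 - Q.1) = 0 := by
      have := congrArg Prod.fst h
      simp only [pt] at this
      linarith
    have h2 : (1 + j * T) * (Y.2 - Q.2) = 0 := by
      have := congrArg Prod.snd h
      simp only [pt] at this
      linarith
    have h1' := (mul_eq_zero.mp h1).resolve_left hjT1
    have h2' := (mul_eq_zero.mp h2).resolve_left hjT1
    exact hYQ (Prod.ext (by linarith) (by linarith))
  have hVY : V ≠ Y := by
    intro h
    rw [hV'] at h
    have h1 : (j * T) * (Y.1 - Q.1) = 0 := by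
      have := congrArg Prod.fst h
      simp only [pt] at this
      linarith
    have h2 : (j * T) * (Y.2 - Q.2) = 0 := by
      have := congrArg Prod.snd h
      simp only [pt] at this
      linarith
    have h1' := (mul_eq_zero.mp h1).resolve_left hjT
    have h2' := (mul_eq_zero.mp h2).resolve_left hjT
    exact hYQ (Prod.ext (by linarith) (by linarith))
  have hVX : V ≠ X := by
    intro h; rw [h] at dRZV; exact dRZX dRZV
  have hVP : V ≠ P := by
    intro h; rw [h] at dRZV; exact dRZP dRZV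
  have hVA : V ∉ insert Z (insert Y (insert X ({P, Q, R} : Finset (ℤ × ℤ)))) := by
    simp only [mem_insert, mem_singleton, not_or]
    exact ⟨hVZ, hVY, hVX, hVP, hVQ, hVR⟩
  have hB3 : ∀ w ∈ insert z (insert y (insert x S)), D R Z w ≠ 0 := by
    intro w hw
    rcases mem_insert.mp hw with rfl | hw
    · intro h
      exact hzZ (inter dPYR' hz dPYZ h (D_self2 _ _))
    rcases mem_insert.mp hw with rfl | hw
    · intro h
      exact hyR (inter (P := R) (Q := X) (R := R) (S := Z)
        (by rw [D_self1]; exact dRXZ.symm) hy (D_self1 _ _) h (D_self1 _ _))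
    · exact hJ4 w hw
  have hB3' : ∀ w ∈ insert z (insert y (insert x S)), D Q Y w ≠ 0 := by
    intro w hw
    rcases mem_insert.mp hw with rfl | hw
    · intro h
      exact hzY (inter (P := P) (Q := Y) (R := Q) (S := Y)
        (by rw [D_self2]; exact dPYQ) hz (D_self2 _ _) h (D_self2 _ _))
    rcases mem_insert.mp hw with rfl | hw
    · intro h
      exact hyY (inter (P := R) (Q := X) (R := Q) (S := Y)
        (by rw [dRXY]; exact dRXQ) hy dRXY h (D_self2 _ _))
    rcases mem_insert.mp hw with rfl | hw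
    · intro h
      exact hxQ (inter (P := P) (Q := Q) (R := Q) (S := Y)
        (by rw [D_self2]; exact dPQY.symm) hx (D_self2 _ _) h (D_self1 _ _))
    · exact hJ3 w hw
  have h43 : ¬ Won 4 (insert z (insert y (insert x S))) (insert Z (insert Y (insert X {P, Q, R}))) := by
    rintro ⟨a, b, c, hab, hk, hoff⟩
    have h1 := card_ins a b c x S
    have h2 := card_ins a b c y (insert x S)
    have h3 := card_ins a b c z (insert y (insert x S))
    have i1 := ind_le a b c x
    have i2 := ind_le a b c y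
    have i3 := ind_le a b c z
    have oP := hoff P (by simp)
    have oQ := hoff Q (by simp)
    have oR := hoff R (by simp)
    have oX := hoff X (by simp)
    by_cases hf : 2 ≤ (S.filter (fun z => a * z.1 + b * z.2 = c)).card
    · have hcount := two_count hPQ hT hx hy hT4 hab oP oQ oR hf
      obtain ⟨s, hs, s', hs', hss⟩ := Finset.one_lt_card.mp (show 1 < _ from hf)
      rw [mem_filter] at hs hs'
      have hon := on_iff hab hss hs.2 hs'.2
      have : ind a b c z = 0 := by
        apply ind_zero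
        intro h
        refine hJ5 s (mem_insert_of_mem hs.1) s' (mem_insert_of_mem hs'.1) hss
          (fun h => oP ((hon P).mpr h)) (hT3 s hs.1 s' hs'.1 hss).symm z hz ((hon z).mp h)
      omega
    · -- one stone `s` of `S` and all of `x, y, z`
      have hf1 : 0 < (S.filter (fun z => a * z.1 + b * z.2 = c)).card := by omega
      obtain ⟨s, hs⟩ := Finset.card_pos.mp hf1
      rw [mem_filter] at hs
      have ox := ind_one (a := a) (b := b) (c := c) (x := x) (by omega)
      have oy := ind_one (a := a) (b := b) (c := c) (x := y) (by omega)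
      have oz := ind_one (a := a) (b := b) (c := c) (x := z) (by omega)
      have hsx : s ≠ x := by
        rintro rfl; exact hxS hs.1
      have hon := on_iff hab hsx hs.2 ox
      by_cases hpar : D s x R = D s x X
      · have e := par_eq hXR hy hpar
        have e' := (hon y).mp oy
        exact oR ((hon R).mpr (by rw [← e, e']))
      · exact hJ5 s (mem_insert_of_mem hs.1) x (mem_insert_self _ _) hsx
          (fun h => oP ((hon P).mpr h)) hpar z hz ((hon z).mp oz)
  exact doubleD (P := R) (Q := Z) (P' := Q) (Q' := Y) hZR.symm hYQ.symm (by simp) (by simp)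
    (by simp) (by simp) hVA dRZV dQYV hB3 hB3'
    (fun s h h' => inter dne h dRZV h' dQYV) h43

end Pool.Agent.H89.Kap
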