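import Pool.Agent.H89.Kap.Geo

/-!
# Kaplansky's line game, 4 against 5: the game

Positions are pairs `A, B` of finite sets of lattice points: the stones of the player `F` (who needs
4 in line) and of his opponent `S` (who needs 5).  `FWin n A B`: with `F` to move he wins with at most
`n` further stones.
-/

set_option autoImplicit false

open Finset

namespace Pool.Agent.H89.Kap

/-- Some line contains at least `k` points of `A` and no point of `B`. -/
def Won (k : ℕ) (A B : Finset (ℤ × ℤ)) : Prop :=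
  ∃ a b c : ℤ, (a ≠ 0 ∨ b ≠ 0) ∧ k ≤ (A.filter (fun z => a * z.1 + b * z.2 = c)).card ∧
    ∀ z ∈ B, a * z.1 + b * z.2 ≠ c

/-- `F` (stones `A`) is to move against `S` (stones `B`) and wins with at most `n` more stones. -/
def FWin : ℕ → Finset (ℤ × ℤ) → Finset (ℤ × ℤ) → Prop
  | 0, _, _ => False
  | n + 1, A, B => ∃ q, q ∉ A ∧ q ∉ B ∧ (Won 4 (insert q A) B ∨
      ∀ s, s ∉ insert q A → s ∉ B →
        ¬ Won 5 (insert s B) (insert q A) ∧ FWin n (insert q A) (insert s B))

lemma Won.mono {k : ℕ} {A A' B B' : Finset (ℤ × ℤ)} (hA : A ⊆ A') (hB : B' ⊆ B)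
    (h : Won k A B) : Won k A' B' := by
  obtain ⟨a, b, c, hab, hk, hoff⟩ := h
  refine ⟨a, b, c, hab, hk.trans (card_le_card (filter_subset_filter _ hA)), ?_⟩
  exact fun z hz => hoff z (hB hz)

lemma not_won_insert {k : ℕ} {A B : Finset (ℤ × ℤ)} (s q : ℤ × ℤ) (h : ¬ Won k B A) :
    ¬ Won (k + 1) (insert s B) (insert q A) := by
  rintro ⟨a, b, c, hab, hk, hoff⟩
  apply h
  refine ⟨a, b, c, hab, ?_, fun z hz => hoff z (mem_insert_of_mem hz)⟩
  have : ((insert s B).filter (fun z => a * z.1 + b * z.2 = c)).card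
      ≤ (B.filter (fun z => a * z.1 + b * z.2 = c)).card + 1 := by
    rw [filter_insert]
    split_ifs
    · exact card_insert_le _ _
    · omega
  omega

lemma not_won_of_card {k : ℕ} {A B : Finset (ℤ × ℤ)} (h : B.card < k) : ¬ Won k B A := by
  rintro ⟨a, b, c, _, hk, _⟩
  have := card_filter_le B (fun z => a * z.1 + b * z.2 = c)
  omega

/-- A line with a lattice point has a lattice point outside a given finite set. -/
lemma exists_fresh {a b c : ℤ} (hab : a ≠ 0 ∨ b ≠ 0) {z : ℤ × ℤ} (hz : a * z.1 + b * z.2 = c)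
    (A : Finset (ℤ × ℤ)) : ∃ q, a * q.1 + b * q.2 = c ∧ q ∉ A := by
  by_contra hc
  push Not at hc
  have hinj : Function.Injective (fun m : ℤ => ((z.1 - m * b, z.2 + m * a) : ℤ × ℤ)) := by
    intro m m' h
    simp only [Prod.mk.injEq] at h
    rcases hab with ha | hb
    · have : (m - m') * a = 0 := by linarith [h.2]
      rcases mul_eq_zero.mp this with h' | h'
      · linarith
      · exact absurd h' ha
    · have : (m - m') * b = 0 := by linarith [h.1]
      rcases mul_eq_zero.mp this with h' | h'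
      · linarith
      · exact absurd h' hb
  have hsub : Set.range (fun m : ℤ => ((z.1 - m * b, z.2 + m * a) : ℤ × ℤ)) ⊆ (A : Set (ℤ × ℤ)) := by
    rintro _ ⟨m, rfl⟩
    refine Finset.mem_coe.mpr (hc _ ?_)
    simp only
    linarith [hz]
  exact (Set.infinite_range_of_injective hinj) (A.finite_toSet.subset hsub)

/-- Three stones on a line free of opposing stones: `F` completes. -/
lemma complete {n : ℕ} {A B : Finset (ℤ × ℤ)} {a b c : ℤ} (hab : a ≠ 0 ∨ b ≠ 0)
    {z1 z2 z3 : ℤ × ℤ} (h1 : z1 ∈ A) (h2 : z2 ∈ A) (h3 : z3 ∈ A)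
    (h12 : z1 ≠ z2) (h13 : z1 ≠ z3) (h23 : z2 ≠ z3)
    (o1 : a * z1.1 + b * z1.2 = c) (o2 : a * z2.1 + b * z2.2 = c) (o3 : a * z3.1 + b * z3.2 = c)
    (hB : ∀ z ∈ B, a * z.1 + b * z.2 ≠ c) : FWin (n + 1) A B := by
  obtain ⟨q, hq, hqA⟩ := exists_fresh hab o1 A
  refine ⟨q, hqA, fun h => hB q h hq, Or.inl ⟨a, b, c, hab, ?_, hB⟩⟩
  have hq1 : q ≠ z1 := fun h => hqA (h ▸ h1)
  have hq2 : q ≠ z2 := fun h => hqA (h ▸ h2)
  have hq3 : q ≠ z3 := fun h => hqA (h ▸ h3)
  have hsub : ({q, z1, z2, z3} : Finset (ℤ × ℤ)) ⊆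
      (insert q A).filter (fun z => a * z.1 + b * z.2 = c) := by
    intro w hw
    simp only [mem_insert, mem_singleton] at hw
    rw [mem_filter, mem_insert]
    rcases hw with rfl | rfl | rfl | rfl
    · exact ⟨Or.inl rfl, hq⟩
    · exact ⟨Or.inr h1, o1⟩
    · exact ⟨Or.inr h2, o2⟩
    · exact ⟨Or.inr h3, o3⟩
  have hcard : ({q, z1, z2, z3} : Finset (ℤ × ℤ)).card = 4 := by
    rw [card_insert_of_notMem, card_insert_of_notMem, card_insert_of_notMem, card_singleton]
    · simpa using h23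
    · simp only [mem_insert, mem_singleton]; tauto
    · simp only [mem_insert, mem_singleton]; tauto
  calc 4 = ({q, z1, z2, z3} : Finset (ℤ × ℤ)).card := hcard.symm
    _ ≤ _ := card_le_card hsub

/-- A check: `F` puts a third stone on a free line; only replies on this line matter. -/
lemma check {n : ℕ} {A B : Finset (ℤ × ℤ)} {a b c : ℤ} (hab : a ≠ 0 ∨ b ≠ 0)
    {z1 z2 q : ℤ × ℤ} (h1 : z1 ∈ A) (h2 : z2 ∈ A) (h12 : z1 ≠ z2) (hq : q ∉ A)
    (o1 : a * z1.1 + b * z1.2 = c) (o2 : a * z2.1 + b * z2.2 = c) (oq : a * q.1 + b * q.2 = c)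
    (hB : ∀ z ∈ B, a * z.1 + b * z.2 ≠ c) (h4 : ¬ Won 4 B A)
    (H : ∀ s, a * s.1 + b * s.2 = c → s ∉ insert q A → s ∉ B →
      FWin (n + 1) (insert q A) (insert s B)) : FWin (n + 2) A B := by
  refine ⟨q, hq, fun h => hB q h oq, Or.inr ?_⟩
  intro s hs hsB
  refine ⟨not_won_insert s q h4, ?_⟩
  by_cases hon : a * s.1 + b * s.2 = c
  · exact H s hon hs hsB
  · refine complete hab (mem_insert_of_mem h1) (mem_insert_of_mem h2) (mem_insert_self q A)
      h12 (fun h => hq (h ▸ h1)) (fun h => hq (h ▸ h2)) o1 o2 oq ?_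
    intro z hz
    rcases mem_insert.mp hz with rfl | hz
    · exact hon
    · exact hB z hz

/-- A double: `F` puts a third stone on two free lines at once. -/
lemma double {A B : Finset (ℤ × ℤ)} {a b c a' b' c' : ℤ} (hab : a ≠ 0 ∨ b ≠ 0)
    (hab' : a' ≠ 0 ∨ b' ≠ 0) {z1 z2 w1 w2 q : ℤ × ℤ} (h1 : z1 ∈ A) (h2 : z2 ∈ A) (h12 : z1 ≠ z2)
    (g1 : w1 ∈ A) (g2 : w2 ∈ A) (g12 : w1 ≠ w2) (hq : q ∉ A)
    (o1 : a * z1.1 + b * z1.2 = c) (o2 : a * z2.1 + b * z2.2 = c) (oq : a * q.1 + b * q.2 = c)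
    (p1 : a' * w1.1 + b' * w1.2 = c') (p2 : a' * w2.1 + b' * w2.2 = c')
    (pq : a' * q.1 + b' * q.2 = c')
    (hB : ∀ z ∈ B, a * z.1 + b * z.2 ≠ c) (hB' : ∀ z ∈ B, a' * z.1 + b' * z.2 ≠ c')
    (hX : ∀ s : ℤ × ℤ, a * s.1 + b * s.2 = c → a' * s.1 + b' * s.2 = c' → s = q)
    (h4 : ¬ Won 4 B A) : FWin 2 A B := by
  refine check (n := 0) hab h1 h2 h12 hq o1 o2 oq hB h4 ?_
  intro s hs hsA hsB
  refine complete hab' (mem_insert_of_mem g1) (mem_insert_of_mem g2) (mem_insert_self q A)
      g12 (fun h => hq (h ▸ g1)) (fun h => hq (h ▸ g2)) p1 p2 pq ?_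
  intro z hz
  rcases mem_insert.mp hz with rfl | hz
  · intro h
    exact hsA (by rw [hX z hs h]; exact mem_insert_self q A)
  · exact hB' z hz

/-- A quiet move. -/
lemma quiet {n : ℕ} {A B : Finset (ℤ × ℤ)} (q : ℤ × ℤ) (hq : q ∉ A) (hqB : q ∉ B)
    (hc : B.card < 4) (H : ∀ s, s ∉ insert q A → s ∉ B → FWin n (insert q A) (insert s B)) :
    FWin (n + 1) A B :=
  ⟨q, hq, hqB, Or.inr fun s hs hsB =>
    ⟨not_won_insert s q (not_won_of_card hc), H s hs hsB⟩⟩

/-! ## From `FWin` to a strategy -/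

/-- The stones of the player moving at the indices `i % 2 = r` in the first `n` moves of a play. -/
def mine (r : ℕ) (p : ℕ → ℤ × ℤ) (n : ℕ) : Finset (ℤ × ℤ) :=
  ((range n).filter (fun i => i % 2 = r)).image p

/-- The stones of the other player. -/
def yours (r : ℕ) (p : ℕ → ℤ × ℤ) (n : ℕ) : Finset (ℤ × ℤ) :=
  ((range n).filter (fun i => i % 2 ≠ r)).image p

lemma mine_succ_same {r : ℕ} {p : ℕ → ℤ × ℤ} {n : ℕ} (h : n % 2 = r) :
    mine r p (n + 1) = insert (p n) (mine r p n) := by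
  simp only [mine, range_add_one, filter_insert, h, if_true, image_insert]

lemma mine_succ_other {r : ℕ} {p : ℕ → ℤ × ℤ} {n : ℕ} (h : n % 2 ≠ r) :
    mine r p (n + 1) = mine r p n := by
  simp only [mine, range_add_one, filter_insert, h, if_false]

lemma yours_succ_same {r : ℕ} {p : ℕ → ℤ × ℤ} {n : ℕ} (h : n % 2 = r) :
    yours r p (n + 1) = yours r p n := by
  simp only [yours, range_add_one, filter_insert]
  rw [if_neg (by simpa using h)]

lemma yours_succ_other {r : ℕ} {p : ℕ → ℤ × ℤ} {n : ℕ} (h : n % 2 ≠ r) :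
    yours r p (n + 1) = insert (p n) (yours r p n) := by
  simp only [yours, range_add_one, filter_insert]
  rw [if_pos h, image_insert]

lemma notMem_mine {r : ℕ} {p : ℕ → ℤ × ℤ} (hp : Function.Injective p) {n m : ℕ} (h : n ≤ m) :
    p m ∉ mine r p n := by
  simp only [mine, mem_image, mem_filter, mem_range, not_exists, not_and, and_imp]
  intro i hi _ he
  have := hp he
  omega

lemma notMem_yours {r : ℕ} {p : ℕ → ℤ × ℤ} (hp : Function.Injective p) {n m : ℕ} (h : n ≤ m) :
    p m ∉ yours r p n := by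
  simp only [yours, mem_image, mem_filter, mem_range, not_exists, not_and, and_imp]
  intro i hi _ he
  have := hp he
  omega

/-- Stones read off a history. -/
def hMine (r : ℕ) (h : List (ℤ × ℤ)) : Finset (ℤ × ℤ) := mine r (fun i => h.getD i 0) h.length

/-- Stones of the other player read off a history. -/
def hYours (r : ℕ) (h : List (ℤ × ℤ)) : Finset (ℤ × ℤ) := yours r (fun i => h.getD i 0) h.length

lemma getD_map_range (p : ℕ → ℤ × ℤ) {n i : ℕ} (hi : i < n) :
    ((List.range n).map p).getD i 0 = p i := by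
  rw [List.getD_eq_getElem?_getD, List.getElem?_map, List.getElem?_range hi]
  rfl

lemma hMine_map (r : ℕ) (p : ℕ → ℤ × ℤ) (n : ℕ) :
    hMine r ((List.range n).map p) = mine r p n := by
  unfold hMine mine
  rw [List.length_map, List.length_range]
  apply image_congr
  intro i hi
  have : i ∈ (range n).filter (fun i => i % 2 = r) := hi
  exact getD_map_range p (mem_range.mp (mem_filter.mp this).1)

lemma hYours_map (r : ℕ) (p : ℕ → ℤ × ℤ) (n : ℕ) :
    hYours r ((List.range n).map p) = yours r p n := by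
  unfold hYours yours
  rw [List.length_map, List.length_range]
  apply image_congr
  intro i hi
  have : i ∈ (range n).filter (fun i => i % 2 ≠ r) := hi
  exact getD_map_range p (mem_range.mp (mem_filter.mp this).1)

lemma mem_hist {r : ℕ} {h : List (ℤ × ℤ)} {q : ℤ × ℤ} (h1 : q ∉ hMine r h) (h2 : q ∉ hYours r h) :
    q ∉ h := by
  intro hq
  obtain ⟨i, hi, rfl⟩ := List.getElem_of_mem hq
  have e : h.getD i 0 = h[i] := by
    rw [List.getD_eq_getElem?_getD, List.getElem?_eq_getElem hi]; rfl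
  by_cases hr : i % 2 = r
  · apply h1
    unfold hMine mine
    rw [mem_image]
    exact ⟨i, mem_filter.mpr ⟨mem_range.mpr hi, hr⟩, e⟩
  · apply h2
    unfold hYours yours
    rw [mem_image]
    exact ⟨i, mem_filter.mpr ⟨mem_range.mpr hi, hr⟩, e⟩

/-- `q` is a winning move with `n` further stones left. -/
def Good (n : ℕ) (A B : Finset (ℤ × ℤ)) (q : ℤ × ℤ) : Prop :=
  q ∉ A ∧ q ∉ B ∧ (Won 4 (insert q A) B ∨
      ∀ s, s ∉ insert q A → s ∉ B →
        ¬ Won 5 (insert s B) (insert q A) ∧ FWin n (insert q A) (insert s B))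

lemma exists_good {A B : Finset (ℤ × ℤ)} (h : ∃ n, FWin n A B) :
    ∃ q n, Good n A B q ∧ ∀ m, FWin m A B → n < m := by
  classical
  have hs := Nat.find_spec h
  have hmin := fun m hm => Nat.find_min' h (m := m) hm
  rcases hN : Nat.find h with _ | n
  · rw [hN] at hs
    exact absurd hs (by simp [FWin])
  · rw [hN] at hs
    obtain ⟨q, hq⟩ := hs
    refine ⟨q, n, hq, fun m hm => ?_⟩
    have := hmin m hm
    omega

open Classical in
/-- The strategy: a winning move of minimal length if there is one, otherwise any new point. -/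
noncomputable def strat (r : ℕ) (h : List (ℤ × ℤ)) : ℤ × ℤ :=
  if H : ∃ n, FWin n (hMine r h) (hYours r h) then (exists_good H).choose
  else (Infinite.exists_notMem_finset h.toFinset).choose

lemma strat_notMem (r : ℕ) (h : List (ℤ × ℤ)) : strat r h ∉ h := by
  unfold strat
  split_ifs with H
  · obtain ⟨n, hg, _⟩ := (exists_good H).choose_spec
    exact mem_hist hg.1 hg.2.1
  · have := (Infinite.exists_notMem_finset h.toFinset).choose_spec
    simpa using this

lemma strat_good {r : ℕ} {h : List (ℤ × ℤ)} {m : ℕ} (H : FWin m (hMine r h) (hYours r h)) :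
    ∃ n, n < m ∧ Good n (hMine r h) (hYours r h) (strat r h) := by
  have H' : ∃ n, FWin n (hMine r h) (hYours r h) := ⟨m, H⟩
  unfold strat
  rw [dif_pos H']
  obtain ⟨n, hg, hn⟩ := (exists_good H').choose_spec
  exact ⟨n, hn m H, hg⟩

/-- Playing `strat` from a winning position wins in time. -/
lemma play {r : ℕ} {p : ℕ → ℤ × ℤ} (hp : Function.Injective p)
    (hσ : ∀ n : ℕ, n % 2 = r → p n = strat r ((List.range n).map p)) :
    ∀ n t : ℕ, t % 2 = r → FWin n (mine r p t) (yours r p t) →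
      ¬ Won 5 (yours r p t) (mine r p t) →
      ∃ t', t ≤ t' ∧ t' + 2 ≤ t + 2 * n ∧ Won 4 (mine r p (t' + 1)) (yours r p (t' + 1)) ∧
        ∀ m, t ≤ m → m ≤ t' → ¬ Won 5 (yours r p (m + 1)) (mine r p (m + 1)) := by
  intro n
  induction n using Nat.strong_induction_on with
  | _ n ih =>
    intro t ht hw h5
    have hw' : FWin n (hMine r ((List.range t).map p)) (hYours r ((List.range t).map p)) := by
      rw [hMine_map, hYours_map]; exact hw
    obtain ⟨k, hk, hg⟩ := strat_good hw'
    rw [hMine_map, hYours_map, ← hσ t ht] at hg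
    have e1 : mine r p (t + 1) = insert (p t) (mine r p t) := mine_succ_same ht
    have e2 : yours r p (t + 1) = yours r p t := yours_succ_same ht
    have h5' : ¬ Won 5 (yours r p (t + 1)) (mine r p (t + 1)) := by
      rw [e1, e2]
      exact fun h => h5 (h.mono (Subset.refl _) (subset_insert _ _))
    rcases hg with ⟨_, _, hwin | hcont⟩
    · refine ⟨t, le_refl t, by omega, ?_, ?_⟩
      · rw [e1, e2]; exact hwin
      · intro m hm hm'
        have : m = t := by omega
        rw [this]; exact h5'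
    · have ht1 : (t + 1) % 2 ≠ r := by omega
      have ht2 : (t + 2) % 2 = r := by omega
      have e3 : mine r p (t + 2) = insert (p t) (mine r p t) := by
        rw [show t + 2 = (t + 1) + 1 from rfl, mine_succ_other ht1, e1]
      have e4 : yours r p (t + 2) = insert (p (t + 1)) (yours r p t) := by
        rw [show t + 2 = (t + 1) + 1 from rfl, yours_succ_other ht1, e2]
      have f1 : p (t + 1) ∉ insert (p t) (mine r p t) := by
        rw [← e1]; exact notMem_mine hp (le_refl _)
      have f2 : p (t + 1) ∉ yours r p t := notMem_yours hp (by omega)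
      obtain ⟨g5, gw⟩ := hcont (p (t + 1)) f1 f2
      rw [← e3, ← e4] at g5 gw
      obtain ⟨t', h1, h2, h3, h4⟩ := ih k hk (t + 2) ht2 gw g5
      refine ⟨t', by omega, by omega, h3, ?_⟩
      intro m hm hm'
      rcases Nat.lt_or_ge m (t + 2) with hlt | hge
      · rcases (show m = t ∨ m = t + 1 by omega) with rfl | rfl
        · exact h5'
        · exact g5
      · exact h4 m hge hm'

/-- The winning condition of the play in terms of index sets. -/
lemma won_iff {r k : ℕ} {p : ℕ → ℤ × ℤ} (hp : Function.Injective p) (n : ℕ) :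
    (∃ a b c : ℤ, (a ≠ 0 ∨ b ≠ 0) ∧
        k ≤ ((range (n + 1)).filter
              (fun i => i % 2 = r ∧ a * (p i).1 + b * (p i).2 = c)).card ∧
        ∀ i ∈ range (n + 1), i % 2 ≠ r → a * (p i).1 + b * (p i).2 ≠ c)
      ↔ Won k (mine r p (n + 1)) (yours r p (n + 1)) := by
  unfold Won
  have hcard : ∀ a b c : ℤ, ((mine r p (n + 1)).filter (fun z => a * z.1 + b * z.2 = c)).card
      = ((range (n + 1)).filter
              (fun i => i % 2 = r ∧ a * (p i).1 + b * (p i).2 = c)).card := by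
    intro a b c
    unfold mine
    rw [filter_image, card_image_of_injective _ hp, filter_filter]
  have hoff : ∀ a b c : ℤ, (∀ z ∈ yours r p (n + 1), a * z.1 + b * z.2 ≠ c) ↔
      ∀ i ∈ range (n + 1), i % 2 ≠ r → a * (p i).1 + b * (p i).2 ≠ c := by
    intro a b c
    unfold yours
    constructor
    · intro h i hi hr
      exact h (p i) (mem_image_of_mem p (mem_filter.mpr ⟨hi, hr⟩))
    · intro h z hz
      obtain ⟨i, hi, rfl⟩ := mem_image.mp hz
      exact h i (mem_filter.mp hi).1 (mem_filter.mp hi).2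
  constructor
  · rintro ⟨a, b, c, h1, h2, h3⟩
    exact ⟨a, b, c, h1, by rw [hcard]; exact h2, (hoff a b c).mpr h3⟩
  · rintro ⟨a, b, c, h1, h2, h3⟩
    exact ⟨a, b, c, h1, by rw [← hcard]; exact h2, (hoff a b c).mp h3⟩

lemma mine_other {r : ℕ} (hr : r < 2) (p : ℕ → ℤ × ℤ) (n : ℕ) :
    mine (1 - r) p n = yours r p n := by
  unfold mine yours
  congr 1
  apply filter_congr
  intro i _
  omega

lemma yours_other {r : ℕ} (hr : r < 2) (p : ℕ → ℤ × ℤ) (n : ℕ) :
    yours (1 - r) p n = mine r p n := by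
  unfold mine yours
  congr 1
  apply filter_congr
  intro i _
  omega

end Pool.Agent.H89.Kap
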