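import Mathlib

/-!
# Kaplansky's line game, 4 against 5: lattice geometry

`D p q r` is the orientation determinant of three points of `ℤ²`, and `pt G₀ G₁ t` is the point
`G₀ + t (G₁ - G₀)`.  The two lemmas used throughout are: a point moving on a line which misses `O`
leaves, for all large parameters, every fixed line through `O` (`ev_ne`), and a fixed line missing
`O` contains, for all large parameters, no lattice point of the line `O (pt G₀ G₁ t)` (`far`).
-/

set_option autoImplicit false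

open Filter

namespace Pool.Agent.H89.Kap

/-- Orientation determinant of three lattice points. -/
def D (p q r : ℤ × ℤ) : ℤ := (q.1 - p.1) * (r.2 - p.2) - (q.2 - p.2) * (r.1 - p.1)

/-- The point `G₀ + t (G₁ - G₀)`. -/
def pt (G0 G1 : ℤ × ℤ) (t : ℤ) : ℤ × ℤ :=
  (G0.1 + t * (G1.1 - G0.1), G0.2 + t * (G1.2 - G0.2))

lemma ev_gt (K : ℤ) : ∀ᶠ t : ℤ in atTop, K < t := eventually_gt_atTop K

lemma ev_abs {α β : ℤ} (hβ : β ≠ 0) (K : ℤ) : ∀ᶠ t : ℤ in atTop, K < |α + t * β| := by
  filter_upwards [ev_gt (|α| + |K|)] with t ht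
  have h0 : 0 < t := lt_of_le_of_lt (by positivity) ht
  have h1 : |t * β| ≥ t := by
    rw [abs_mul, abs_of_pos h0]
    have : 1 ≤ |β| := Int.one_le_abs hβ
    nlinarith
  have h2 : |t * β| ≤ |α + t * β| + |α| := by
    have := abs_sub (α + t * β) α
    simpa using this
  have h3 := le_abs_self K
  linarith

lemma ev_affine {α β : ℤ} (h : α ≠ 0 ∨ β ≠ 0) : ∀ᶠ t : ℤ in atTop, α + t * β ≠ 0 := by
  by_cases hβ : β = 0
  · subst hβ
    have hα : α ≠ 0 := by tauto
    exact Eventually.of_forall (fun t => by simpa using hα)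
  · filter_upwards [ev_abs (α := α) hβ 0] with t ht
    exact abs_pos.mp ht

lemma D_pt (O G0 G1 s : ℤ × ℤ) (t : ℤ) :
    D O (pt G0 G1 t) s = D O G0 s + t * (D O G1 s - D O G0 s) := by
  simp only [D, pt]; ring

lemma D_pt' (s s' G0 G1 : ℤ × ℤ) (t : ℤ) :
    D s s' (pt G0 G1 t) = D s s' G0 + t * (D s s' G1 - D s s' G0) := by
  simp only [D, pt]; ring

lemma D_cyc (p q r : ℤ × ℤ) : D p q r = D q r p := by simp only [D]; ring

lemma D_swap (p q r : ℤ × ℤ) : D p q r = - D q p r := by simp only [D]; ring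

lemma D_swap' (p q r : ℤ × ℤ) : D p q r = - D p r q := by simp only [D]; ring

lemma D_self1 (p q : ℤ × ℤ) : D p q p = 0 := by simp only [D]; ring

lemma D_self2 (p q : ℤ × ℤ) : D p q q = 0 := by simp only [D]; ring

lemma D_self3 (p q : ℤ × ℤ) : D p p q = 0 := by simp only [D]; ring

/-- Two independent directions at `O`: a point on both lines is `O`. -/
lemma eq_of_D {O G0 G1 s : ℤ × ℤ} (h : D O G0 G1 ≠ 0) (h0 : D O G0 s = 0) (h1 : D O G1 s = 0) :
    s = O := by
  have e1 : D O G0 G1 * (s.1 - O.1) = 0 := by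
    have : D O G0 G1 * (s.1 - O.1)
        = D O G0 s * (G1.1 - O.1) * 1 - D O G1 s * (G0.1 - O.1) := by
      simp only [D]; ring
    rw [this, h0, h1]; ring
  have e2 : D O G0 G1 * (s.2 - O.2) = 0 := by
    have : D O G0 G1 * (s.2 - O.2)
        = D O G0 s * (G1.2 - O.2) - D O G1 s * (G0.2 - O.2) := by
      simp only [D]; ring
    rw [this, h0, h1]; ring
  have f1 : s.1 - O.1 = 0 := by
    rcases mul_eq_zero.mp e1 with h' | h'
    · exact absurd h' h
    · exact h'
  have f2 : s.2 - O.2 = 0 := by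
    rcases mul_eq_zero.mp e2 with h' | h'
    · exact absurd h' h
    · exact h'
  ext
  · linarith
  · linarith

lemma ev_ne {O G0 G1 s : ℤ × ℤ} (h : D O G0 G1 ≠ 0) (hs : s ≠ O) :
    ∀ᶠ t : ℤ in atTop, D O (pt G0 G1 t) s ≠ 0 := by
  have : D O G0 s ≠ 0 ∨ (D O G1 s - D O G0 s) ≠ 0 := by
    by_contra hc
    push Not at hc
    exact hs (eq_of_D h hc.1 (by linarith [hc.1, hc.2]))
  filter_upwards [ev_affine this] with t ht
  rwa [D_pt]

/-- The line through `s, s'` is, for all large `t`, not parallel to the line `O (pt G₀ G₁ t)`. -/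
lemma ev_par {O G0 G1 s s' : ℤ × ℤ}
    (h : D s s' G0 - D s s' O ≠ 0 ∨ D s s' G1 - D s s' G0 ≠ 0) :
    ∀ᶠ t : ℤ in atTop, D s s' (pt G0 G1 t) ≠ D s s' O := by
  filter_upwards [ev_affine h] with t ht
  rw [D_pt']
  intro h'
  apply ht
  linarith

/-- A fixed line `s s'` missing `O` and not parallel to `G₀ G₁` contains, for all large `t`, no
lattice point of the line `O (pt G₀ G₁ t)`. -/
lemma far {O G0 G1 s s' : ℤ × ℤ} (h : D O G0 G1 ≠ 0) (hO : D s s' O ≠ 0)
    (hp : D s s' G0 ≠ D s s' G1) :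
    ∀ᶠ t : ℤ in atTop, ∀ z : ℤ × ℤ, D O (pt G0 G1 t) z = 0 → D s s' z ≠ 0 := by
  have hp' : D s s' G1 - D s s' G0 ≠ 0 := fun h' => hp (by linarith)
  filter_upwards [ev_abs (α := D s s' G0 - D s s' O) hp' (|D s s' O * D O G0 G1|)] with t ht z hz hz'
  -- the Plücker relation
  have key : (D s s' G0 - D s s' O + t * (D s s' G1 - D s s' G0)) *
      ((z.1 - O.1) * (G1.2 - G0.2) - (z.2 - O.2) * (G1.1 - G0.1))
      = - (D s s' O * D O G0 G1) := by
    have e : (D s s' G0 - D s s' O + t * (D s s' G1 - D s s' G0)) *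
      ((z.1 - O.1) * (G1.2 - G0.2) - (z.2 - O.2) * (G1.1 - G0.1))
      = (D s s' z - D s s' O) * D O G0 G1
        - (D s s' G1 - D s s' G0) * D O (pt G0 G1 t) z := by
      simp only [D, pt]; ring
    rw [e, hz, hz']; ring
  have hne : (D s s' O * D O G0 G1) ≠ 0 := mul_ne_zero hO h
  have hm : ((z.1 - O.1) * (G1.2 - G0.2) - (z.2 - O.2) * (G1.1 - G0.1)) ≠ 0 := by
    intro h0
    rw [h0, mul_zero] at key
    exact hne (by linarith)
  have h1 : 1 ≤ |((z.1 - O.1) * (G1.2 - G0.2) - (z.2 - O.2) * (G1.1 - G0.1))| :=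
    Int.one_le_abs hm
  have h2 := congrArg abs key
  rw [abs_mul, abs_neg] at h2
  have h3 : 0 ≤ |D s s' G0 - D s s' O + t * (D s s' G1 - D s s' G0)| := abs_nonneg _
  nlinarith

/-- The line `a x + b y = c` through two distinct lattice points `s, s'` in terms of `D`. -/
lemma on_iff {a b c : ℤ} (hab : a ≠ 0 ∨ b ≠ 0) {s s' : ℤ × ℤ} (hss : s ≠ s')
    (hs : a * s.1 + b * s.2 = c) (hs' : a * s'.1 + b * s'.2 = c) (z : ℤ × ℤ) :
    a * z.1 + b * z.2 = c ↔ D s s' z = 0 := by
  have he : a * (s'.1 - s.1) + b * (s'.2 - s.2) = 0 := by linarith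
  have hne : s'.1 - s.1 ≠ 0 ∨ s'.2 - s.2 ≠ 0 := by
    by_contra hc
    push Not at hc
    exact hss (Prod.ext (by linarith [hc.1]) (by linarith [hc.2]))
  constructor
  · intro hz
    have hz' : a * (z.1 - s.1) + b * (z.2 - s.2) = 0 := by linarith
    rcases hab with ha | hb
    · have : a * D s s' z = 0 := by
        have : a * D s s' z = (a * (s'.1 - s.1) + b * (s'.2 - s.2)) * (z.2 - s.2)
            - (s'.2 - s.2) * (a * (z.1 - s.1) + b * (z.2 - s.2)) := by simp only [D]; ring
        rw [this, he, hz']; ring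
      exact (mul_eq_zero.mp this).resolve_left ha
    · have : b * D s s' z = 0 := by
        have : b * D s s' z = (s'.1 - s.1) * (a * (z.1 - s.1) + b * (z.2 - s.2))
            - (a * (s'.1 - s.1) + b * (s'.2 - s.2)) * (z.1 - s.1) := by simp only [D]; ring
        rw [this, he, hz']; ring
      exact (mul_eq_zero.mp this).resolve_left hb
  · intro hz
    have : a * (z.1 - s.1) + b * (z.2 - s.2) = 0 := by
      rcases hne with h1 | h2
      · have : (s'.1 - s.1) * (a * (z.1 - s.1) + b * (z.2 - s.2)) = 0 := by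
          have : (s'.1 - s.1) * (a * (z.1 - s.1) + b * (z.2 - s.2)) = b * D s s' z
            + (a * (s'.1 - s.1) + b * (s'.2 - s.2)) * (z.1 - s.1) := by simp only [D]; ring
          rw [this, he, hz]; ring
        exact (mul_eq_zero.mp this).resolve_left h1
      · have : (s'.2 - s.2) * (a * (z.1 - s.1) + b * (z.2 - s.2)) = 0 := by
          have : (s'.2 - s.2) * (a * (z.1 - s.1) + b * (z.2 - s.2)) = - a * D s s' z
            + (a * (s'.1 - s.1) + b * (s'.2 - s.2)) * (z.2 - s.2) := by simp only [D]; ring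
          rw [this, he, hz]; ring
        exact (mul_eq_zero.mp this).resolve_left h2
    linarith

/-- For `s ≠ s'` and a triangle `P, Q, R` the line `s s'` is not parallel to two of its sides. -/
lemma not_both_par {P Q R s s' : ℤ × ℤ} (h : D P Q R ≠ 0) (hss : s ≠ s') :
    D s s' P - D s s' R ≠ 0 ∨ D s s' Q - D s s' P ≠ 0 := by
  by_contra hc
  push Not at hc
  obtain ⟨h1, h2⟩ := hc
  apply hss
  have e1 : D P Q R * (s'.1 - s.1) = 0 := by
    have : D P Q R * (s'.1 - s.1)
        = - (D s s' P - D s s' R) * (Q.1 - P.1) - (D s s' Q - D s s' P) * (R.1 - P.1) := by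
      simp only [D]; ring
    rw [this, h1, h2]; ring
  have e2 : D P Q R * (s'.2 - s.2) = 0 := by
    have : D P Q R * (s'.2 - s.2)
        = - (D s s' P - D s s' R) * (Q.2 - P.2) - (D s s' Q - D s s' P) * (R.2 - P.2) := by
      simp only [D]; ring
    rw [this, h1, h2]; ring
  have f1 := (mul_eq_zero.mp e1).resolve_left h
  have f2 := (mul_eq_zero.mp e2).resolve_left h
  exact Prod.ext (by linarith) (by linarith)

end Pool.Agent.H89.Kap
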