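import Pool.Agent.H89.Kap.Attack

/-!
# Kaplansky's line game, 4 against 5: the opening and the strategy
-/

set_option autoImplicit false

open Filter Finset

namespace Pool.Agent.H89.Kap

/-- `F`'s third stone far away on a line missing `A` and `B`. -/
lemma cstep_aux {A B G0 G1 : ℤ × ℤ} {S : Finset (ℤ × ℤ)} (hAB : A ≠ B) (hA : A ∉ S) (hB : B ∉ S)
    (gA : D A G0 G1 ≠ 0) (gB : D B G0 G1 ≠ 0)
    (hp : ∀ s ∈ S, ∀ s' ∈ S, s ≠ s' → D s s' A ≠ 0 → D s s' B ≠ 0 →
      (D s s' G0 = 0 ∧ D s s' G1 = 0) ∨ D s s' G0 ≠ D s s' G1) :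
    ∃ C, D A C B ≠ 0 ∧ (∀ s ∈ S, D A C s ≠ 0) ∧ (∀ s ∈ S, D B C s ≠ 0) ∧
      ∀ s ∈ S, ∀ s' ∈ S, s ≠ s' → D s s' A ≠ 0 → D s s' B ≠ 0 → D s s' C ≠ 0 →
        (D s s' C ≠ D s s' A ∧ ∀ z, D A C z = 0 → D s s' z ≠ 0) ∧
        (D s s' C ≠ D s s' B ∧ ∀ z, D B C z = 0 → D s s' z ≠ 0) := by
  have ev : ∀ᶠ t : ℤ in atTop, D A (pt G0 G1 t) B ≠ 0 ∧ (∀ s ∈ S, D A (pt G0 G1 t) s ≠ 0) ∧
      (∀ s ∈ S, D B (pt G0 G1 t) s ≠ 0) ∧
      ∀ s ∈ S, ∀ s' ∈ S, s ≠ s' → D s s' A ≠ 0 → D s s' B ≠ 0 → D s s' (pt G0 G1 t) ≠ 0 →
        (D s s' (pt G0 G1 t) ≠ D s s' A ∧ ∀ z, D A (pt G0 G1 t) z = 0 → D s s' z ≠ 0) ∧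
        (D s s' (pt G0 G1 t) ≠ D s s' B ∧ ∀ z, D B (pt G0 G1 t) z = 0 → D s s' z ≠ 0) := by
    refine (ev_ne gA hAB.symm).and (Eventually.and ?_ (Eventually.and ?_ ?_))
    · rw [Finset.eventually_all]
      intro s hs
      exact ev_ne gA (fun h => hA (h ▸ hs))
    · rw [Finset.eventually_all]
      intro s hs
      exact ev_ne gB (fun h => hB (h ▸ hs))
    · rw [Finset.eventually_all]
      intro s hs
      rw [Finset.eventually_all]
      intro s' hs'
      by_cases hss : s = s'
      · exact Eventually.of_forall fun T h => absurd hss h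
      by_cases h1 : D s s' A = 0
      · exact Eventually.of_forall fun T _ h => absurd h1 h
      by_cases h2 : D s s' B = 0
      · exact Eventually.of_forall fun T _ _ h => absurd h2 h
      rcases hp s hs s' hs' hss h1 h2 with ⟨h3, h4⟩ | h3
      · refine Eventually.of_forall fun T _ _ _ h => absurd ?_ h
        rw [D_pt', h3, h4]; ring
      · have h3' : D s s' G1 - D s s' G0 ≠ 0 := fun h => h3 (by linarith)
        filter_upwards [far gA h1 h3, far gB h2 h3,
          ev_par (O := A) (G0 := G0) (G1 := G1) (Or.inr h3'),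
          ev_par (O := B) (G0 := G0) (G1 := G1) (Or.inr h3')] with T a1 a2 a3 a4 _ _ _ _
        exact ⟨⟨a3, a1⟩, ⟨a4, a2⟩⟩
  obtain ⟨t, ht⟩ := ev.exists
  exact ⟨pt G0 G1 t, ht⟩

/-- `F`'s third stone. -/
lemma cstep {A B s0 s1 s2 : ℤ × ℤ} (hAB : A ≠ B) (hA : A ∉ ({s2, s1, s0} : Finset (ℤ × ℤ)))
    (hB : B ∉ ({s2, s1, s0} : Finset (ℤ × ℤ)))
    (h2 : s0 = s1 ∨ D s0 s1 A = 0 ∨ D s0 s1 B = 0) :
    ∃ C, D A C B ≠ 0 ∧ (∀ s ∈ ({s2, s1, s0} : Finset (ℤ × ℤ)), D A C s ≠ 0) ∧
      (∀ s ∈ ({s2, s1, s0} : Finset (ℤ × ℤ)), D B C s ≠ 0) ∧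
      ∀ s ∈ ({s2, s1, s0} : Finset (ℤ × ℤ)), ∀ s' ∈ ({s2, s1, s0} : Finset (ℤ × ℤ)), s ≠ s' →
        D s s' A ≠ 0 → D s s' B ≠ 0 → D s s' C ≠ 0 →
        (D s s' C ≠ D s s' A ∧ ∀ z, D A C z = 0 → D s s' z ≠ 0) ∧
        (D s s' C ≠ D s s' B ∧ ∀ z, D B C z = 0 → D s s' z ≠ 0) := by
  by_cases hc1 : D s0 s2 A ≠ 0 ∧ D s0 s2 B ≠ 0
  · refine cstep_aux (G0 := s0) (G1 := s2) hAB hA hB ?_ ?_ ?_
    · rw [D_cyc]; exact hc1.1
    · rw [D_cyc]; exact hc1.2
    · intro s hs s' hs' hss dA dB
      simp only [mem_insert, mem_singleton] at hs hs'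
      by_cases e0 : D s s' s0 = D s s' s2
      · left
        rcases hs with rfl | rfl | rfl <;> rcases hs' with rfl | rfl | rfl
        all_goals first
          | exact absurd rfl hss
          | (rw [D_self1] at e0; exact ⟨e0, D_self1 _ _⟩)
          | (rw [D_self2] at e0; exact ⟨e0, D_self2 _ _⟩)
          | (rw [D_self1] at e0; exact ⟨D_self1 _ _, e0.symm⟩)
          | (rw [D_self2] at e0; exact ⟨D_self2 _ _, e0.symm⟩)
      · exact Or.inr e0
  by_cases hc2 : D s1 s2 A ≠ 0 ∧ D s1 s2 B ≠ 0
  · refine cstep_aux (G0 := s1) (G1 := s2) hAB hA hB ?_ ?_ ?_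
    · rw [D_cyc]; exact hc2.1
    · rw [D_cyc]; exact hc2.2
    · intro s hs s' hs' hss dA dB
      simp only [mem_insert, mem_singleton] at hs hs'
      by_cases e0 : D s s' s1 = D s s' s2
      · left
        rcases hs with rfl | rfl | rfl <;> rcases hs' with rfl | rfl | rfl
        all_goals first
          | exact absurd rfl hss
          | (rw [D_self1] at e0; exact ⟨e0, D_self1 _ _⟩)
          | (rw [D_self2] at e0; exact ⟨e0, D_self2 _ _⟩)
          | (rw [D_self1] at e0; exact ⟨D_self1 _ _, e0.symm⟩)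
          | (rw [D_self2] at e0; exact ⟨D_self2 _ _, e0.symm⟩)
      · exact Or.inr e0
  · -- every line through two of the stones is dead
    have hA2 := le_abs_self A.2
    have hB2 := le_abs_self B.2
    have hA0 := abs_nonneg A.2
    have hB0 := abs_nonneg B.2
    refine cstep_aux (G0 := (0, |A.2| + |B.2| + 1)) (G1 := (1, |A.2| + |B.2| + 1)) hAB hA hB ?_ ?_ ?_
    · intro h
      simp only [D] at h
      nlinarith
    · intro h
      simp only [D] at h
      nlinarith
    · intro s hs s' hs' hss dA dB
      exfalso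
      have sym : ∀ p q r : ℤ × ℤ, D p q r = 0 → D q p r = 0 := fun p q r h => by
        rw [D_swap, h]; ring
      have d1 : D s0 s2 A = 0 ∨ D s0 s2 B = 0 := by
        by_contra hc; push Not at hc; exact hc1 hc
      have d2 : D s1 s2 A = 0 ∨ D s1 s2 B = 0 := by
        by_contra hc; push Not at hc; exact hc2 hc
      simp only [mem_insert, mem_singleton] at hs hs'
      rcases hs with rfl | rfl | rfl <;> rcases hs' with rfl | rfl | rfl
      · exact hss rfl
      · rcases d2 with h | h
        · exact dA (sym _ _ _ h)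
        · exact dB (sym _ _ _ h)
      · rcases d1 with h | h
        · exact dA (sym _ _ _ h)
        · exact dB (sym _ _ _ h)
      · rcases d2 with h | h
        · exact dA h
        · exact dB h
      · exact hss rfl
      · rcases h2 with h | h | h
        · exact hss h.symm
        · exact dA (sym _ _ _ h)
        · exact dB (sym _ _ _ h)
      · rcases d1 with h | h
        · exact dA h
        · exact dB h
      · rcases h2 with h | h | h
        · exact hss h
        · exact dA h
        · exact dB h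
      · exact hss rfl

/-- `F`'s second stone. -/
lemma bstep {A s0 s1 : ℤ × ℤ} (hA0 : A ≠ s0) (hA1 : A ≠ s1) :
    ∃ B, B ∉ ({A, s0, s1} : Finset (ℤ × ℤ)) ∧ (s0 = s1 ∨ D s0 s1 A = 0 ∨ D s0 s1 B = 0) := by
  by_cases h : s0 = s1 ∨ D s0 s1 A = 0
  · obtain ⟨B, hB⟩ := Infinite.exists_notMem_finset ({A, s0, s1} : Finset (ℤ × ℤ))
    exact ⟨B, hB, by tauto⟩
  · push Not at h
    obtain ⟨h01, hD⟩ := h
    refine ⟨(2 * s1.1 - s0.1, 2 * s1.2 - s0.2), ?_, Or.inr (Or.inr (by simp only [D]; ring))⟩
    simp only [mem_insert, mem_singleton, not_or]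
    refine ⟨?_, ?_, ?_⟩
    · rintro rfl
      exact hD (by simp only [D]; ring)
    · intro h
      apply h01
      have h1 := congrArg Prod.fst h
      have h2 := congrArg Prod.snd h
      simp only at h1 h2
      exact Prod.ext (by linarith) (by linarith)
    · intro h
      apply h01
      have h1 := congrArg Prod.fst h
      have h2 := congrArg Prod.snd h
      simp only at h1 h2
      exact Prod.ext (by linarith) (by linarith)

/-- Three stones against three (or two): `F` wins with six more stones. -/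
lemma stage3 {A B s0 s1 s2 : ℤ × ℤ} (hAB : A ≠ B) (hA : A ∉ ({s2, s1, s0} : Finset (ℤ × ℤ)))
    (hB : B ∉ ({s2, s1, s0} : Finset (ℤ × ℤ)))
    (h2 : s0 = s1 ∨ D s0 s1 A = 0 ∨ D s0 s1 B = 0) :
    FWin 6 {B, A} {s2, s1, s0} := by
  obtain ⟨C, hC, hCA, hCB, hM⟩ := cstep hAB hA hB h2
  set S : Finset (ℤ × ℤ) := {s2, s1, s0} with hS
  have hCS : C ∉ S := fun h => hCA C h (D_self2 _ _)
  have hCA' : C ≠ A := by
    rintro rfl; exact hC (D_self3 _ _)
  have hCB' : C ≠ B := by
    rintro rfl; exact hC (D_self2 _ _)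
  have hcard : S.card < 4 := by
    have h3 : S.card ≤ 3 := Finset.card_le_three (a := s2) (b := s1) (c := s0)
    omega
  -- a line free of `A, B` contains at most two of the stones
  have hle2 : ∀ a b c : ℤ, (a ≠ 0 ∨ b ≠ 0) → a * A.1 + b * A.2 ≠ c → a * B.1 + b * B.2 ≠ c →
      (S.filter (fun z => a * z.1 + b * z.2 = c)).card ≤ 2 := by
    intro a b c hab oA oB
    by_cases h0 : a * s0.1 + b * s0.2 = c
    · by_cases h1 : a * s1.1 + b * s1.2 = c
      · have h01 : s0 = s1 := by
          by_contra h01
          have hon := on_iff hab h01 h0 h1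
          rcases h2 with h | h | h
          · exact h01 h
          · exact oA ((hon A).mpr h)
          · exact oB ((hon B).mpr h)
        have : S = {s2, s1} := by rw [hS, h01]; simp
        rw [this]
        exact (card_filter_le _ _).trans Finset.card_le_two
      · have : S.filter (fun z => a * z.1 + b * z.2 = c) ⊆ {s2, s0} := by
          intro w hw
          rw [hS] at hw
          simp only [mem_filter, mem_insert, mem_singleton] at hw ⊢
          rcases hw with ⟨rfl | rfl | rfl, hw⟩
          · exact Or.inl rfl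
          · exact absurd hw h1
          · exact Or.inr rfl
        exact (card_le_card this).trans Finset.card_le_two
    · have : S.filter (fun z => a * z.1 + b * z.2 = c) ⊆ {s2, s1} := by
        intro w hw
        rw [hS] at hw
        simp only [mem_filter, mem_insert, mem_singleton] at hw ⊢
        rcases hw with ⟨rfl | rfl | rfl, hw⟩
        · exact Or.inl rfl
        · exact Or.inr rfl
        · exact absurd hw h0
      exact (card_le_card this).trans Finset.card_le_two
  refine quiet C ?_ hCS hcard ?_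
  · simp only [mem_insert, mem_singleton, not_or]
    exact ⟨hCB', hCA'⟩
  intro c hcA hcS
  simp only [mem_insert, mem_singleton, not_or] at hcA
  obtain ⟨hcC, hcB, hcA⟩ := hcA
  by_cases hcase : D C A c = 0
  · -- `c` is on `CA`: attack along `CB`
    have hset : insert C ({B, A} : Finset (ℤ × ℤ)) = {C, B, A} := rfl
    rw [hset]
    have hDn : D C B A ≠ 0 := by
      rw [show D C B A = D A C B by simp only [D]; ring]; exact hC
    apply attack hDn
    · simp only [mem_insert, not_or]; exact ⟨fun h => hcC h.symm, hCS⟩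
    · simp only [mem_insert, not_or]; exact ⟨fun h => hcB h.symm, hB⟩
    · simp only [mem_insert, not_or]; exact ⟨fun h => hcA h.symm, hA⟩
    · intro s hs
      rcases mem_insert.mp hs with rfl | hs
      · intro h
        exact hcC (inter (P := C) (Q := A) (R := C) (S := B)
          (by rw [D_self1]; rw [show D C A B = - D A C B by simp only [D]; ring]
              exact (neg_ne_zero.mpr hC).symm) hcase (D_self1 _ _) h (D_self1 _ _))
      · intro h
        apply hCB s hs
        rw [D_swap, h]; ring
    · intro a b c' hab oC oB oA h3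
      have h1 := card_ins a b c' c S
      have i1 := ind_le a b c' c
      have h2' := hle2 a b c' hab oA oB
      obtain ⟨s, hs, s', hs', hss⟩ := Finset.one_lt_card.mp
        (show 1 < (S.filter (fun z => a * z.1 + b * z.2 = c')).card by omega)
      rw [mem_filter] at hs hs'
      have hon := on_iff hab hss hs.2 hs'.2
      obtain ⟨_, hpar, hno⟩ := hM s hs.1 s' hs'.1 hss (fun h => oA ((hon A).mpr h))
        (fun h => oB ((hon B).mpr h)) (fun h => oC ((hon C).mpr h))
      refine ⟨by omega, ?_, ?_⟩
      · intro heq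
        apply hpar
        -- both ends at the same level of the line
        have e : a * (s'.1 - s.1) + b * (s'.2 - s.2) = 0 := by linarith [hs.2, hs'.2]
        have e2 : a * (B.1 - C.1) + b * (B.2 - C.2) = 0 := by linarith
        have : D s s' C - D s s' B = 0 := by
          rcases hab with ha | hb
          · have : a * (D s s' C - D s s' B) = 0 := by
              have : a * (D s s' C - D s s' B) =
                - (a * (s'.1 - s.1) + b * (s'.2 - s.2)) * (B.2 - C.2)
                + (s'.2 - s.2) * (a * (B.1 - C.1) + b * (B.2 - C.2)) := by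
                simp only [D]; ring
              rw [this, e, e2]; ring
            exact (mul_eq_zero.mp this).resolve_left ha
          · have : b * (D s s' C - D s s' B) = 0 := by
              have : b * (D s s' C - D s s' B) =
                (a * (s'.1 - s.1) + b * (s'.2 - s.2)) * (B.1 - C.1)
                - (s'.1 - s.1) * (a * (B.1 - C.1) + b * (B.2 - C.2)) := by
                simp only [D]; ring
              rw [this, e, e2]; ring
            exact (mul_eq_zero.mp this).resolve_left hb
        linarith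
      · intro z hz hz'
        exact hno z (by rw [D_swap, hz]; ring) ((hon z).mp hz')
  · -- `c` is not on `CA`: attack along `CA`
    have hset : insert C ({B, A} : Finset (ℤ × ℤ)) = {C, A, B} := by
      ext w; simp only [mem_insert, mem_singleton]; tauto
    rw [hset]
    have hDn : D C A B ≠ 0 := by
      rw [show D C A B = - D A C B by simp only [D]; ring]; exact neg_ne_zero.mpr hC
    apply attack hDn
    · simp only [mem_insert, not_or]; exact ⟨fun h => hcC h.symm, hCS⟩
    · simp only [mem_insert, not_or]; exact ⟨fun h => hcA h.symm, hA⟩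
    · simp only [mem_insert, not_or]; exact ⟨fun h => hcB h.symm, hB⟩
    · intro s hs
      rcases mem_insert.mp hs with rfl | hs
      · exact hcase
      · intro h
        apply hCA s hs
        rw [D_swap, h]; ring
    · intro a b c' hab oC oA oB h3
      have h1 := card_ins a b c' c S
      have i1 := ind_le a b c' c
      have h2' := hle2 a b c' hab oA oB
      obtain ⟨s, hs, s', hs', hss⟩ := Finset.one_lt_card.mp
        (show 1 < (S.filter (fun z => a * z.1 + b * z.2 = c')).card by omega)
      rw [mem_filter] at hs hs'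
      have hon := on_iff hab hss hs.2 hs'.2
      obtain ⟨⟨hpar, hno⟩, _⟩ := hM s hs.1 s' hs'.1 hss (fun h => oA ((hon A).mpr h))
        (fun h => oB ((hon B).mpr h)) (fun h => oC ((hon C).mpr h))
      refine ⟨by omega, ?_, ?_⟩
      · intro heq
        apply hpar
        have e : a * (s'.1 - s.1) + b * (s'.2 - s.2) = 0 := by linarith [hs.2, hs'.2]
        have e2 : a * (A.1 - C.1) + b * (A.2 - C.2) = 0 := by linarith
        have : D s s' C - D s s' A = 0 := by
          rcases hab with ha | hb
          · have : a * (D s s' C - D s s' A) = 0 := by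
              have : a * (D s s' C - D s s' A) =
                - (a * (s'.1 - s.1) + b * (s'.2 - s.2)) * (A.2 - C.2)
                + (s'.2 - s.2) * (a * (A.1 - C.1) + b * (A.2 - C.2)) := by
                simp only [D]; ring
              rw [this, e, e2]; ring
            exact (mul_eq_zero.mp this).resolve_left ha
          · have : b * (D s s' C - D s s' A) = 0 := by
              have : b * (D s s' C - D s s' A) =
                (a * (s'.1 - s.1) + b * (s'.2 - s.2)) * (A.1 - C.1)
                - (s'.1 - s.1) * (a * (A.1 - C.1) + b * (A.2 - C.2)) := by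
                simp only [D]; ring
              rw [this, e, e2]; ring
            exact (mul_eq_zero.mp this).resolve_left hb
        linarith
      · intro z hz hz'
        exact hno z (by rw [D_swap, hz]; ring) ((hon z).mp hz')

lemma stage2 {A s0 s1 : ℤ × ℤ} (hA0 : A ≠ s0) (hA1 : A ≠ s1) : FWin 7 {A} {s1, s0} := by
  obtain ⟨B, hB, h2⟩ := bstep hA0 hA1
  simp only [mem_insert, mem_singleton, not_or] at hB
  refine quiet B (by simpa using hB.1) ?_ ?_ ?_
  · simp only [mem_insert, mem_singleton, not_or]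
    exact ⟨hB.2.2, hB.2.1⟩
  · have := Finset.card_le_two (a := s1) (b := s0)
    omega
  · intro s2 hs2 hs2'
    simp only [mem_insert, mem_singleton, not_or] at hs2 hs2'
    refine stage3 (fun h => hB.1 h.symm) ?_ ?_ h2
    · simp only [mem_insert, mem_singleton, not_or]
      exact ⟨fun h => hs2.2 h.symm, hA1, hA0⟩
    · simp only [mem_insert, mem_singleton, not_or]
      exact ⟨fun h => hs2.1 h.symm, hB.2.2, hB.2.1⟩

/-- `F` moves second. -/
lemma start_second (s0 : ℤ × ℤ) : FWin 8 ∅ {s0} := by
  obtain ⟨A, hA⟩ := Infinite.exists_notMem_finset ({s0} : Finset (ℤ × ℤ))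
  refine quiet A (by simp) hA (by simp) ?_
  intro s1 hs1 hs1'
  have hs1A : s1 ≠ A := by simpa using hs1
  exact stage2 (by simpa using hA) hs1A.symm

/-- `F` moves first. -/
lemma start_first : FWin 8 ∅ ∅ := by
  refine quiet (0, 0) (by simp) (by simp) (by simp) ?_
  intro a ha _
  have ha' : a ≠ (0, 0) := by simpa using ha
  have := stage2 (A := (0, 0)) (s0 := a) (s1 := a) ha'.symm ha'.symm
  simpa using this

/-- The player moving at the indices `i % 2 = r`, who needs four, wins against the other player, who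
needs five, with at most eight stones. -/
theorem four_five {r : ℕ} (hr : r < 2) {p : ℕ → ℤ × ℤ} (hp : Function.Injective p)
    (hσ : ∀ n : ℕ, n % 2 = r → p n = strat r ((List.range n).map p)) :
    ∃ n ≤ 14 + r, Won 4 (mine r p (n + 1)) (yours r p (n + 1)) ∧
      ∀ m ≤ n, ¬ Won 5 (yours r p (m + 1)) (mine r p (m + 1)) := by
  rcases (show r = 0 ∨ r = 1 by omega) with rfl | rfl
  · have e1 : mine 0 p 0 = ∅ := by simp [mine]
    have e2 : yours 0 p 0 = ∅ := by simp [yours]
    obtain ⟨t, _, h1, h2, h3⟩ := play hp hσ 8 0 rfl (by rw [e1, e2]; exact start_first)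
      (by rw [e1, e2]; exact not_won_of_card (by simp))
    exact ⟨t, by omega, h2, fun m hm => h3 m (by omega) hm⟩
  · have e1 : mine 1 p 1 = ∅ := by
      rw [show (1 : ℕ) = 0 + 1 from rfl, mine_succ_other (by omega)]; simp [mine]
    have e2 : yours 1 p 1 = {p 0} := by
      rw [show (1 : ℕ) = 0 + 1 from rfl, yours_succ_other (by omega)]; simp [yours]
    obtain ⟨t, ht, h1, h2, h3⟩ := play hp hσ 8 1 rfl (by rw [e1, e2]; exact start_second _)
      (by rw [e1, e2]; exact not_won_of_card (by simp))
    refine ⟨t, by omega, h2, fun m hm => ?_⟩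
    rcases Nat.eq_zero_or_pos m with rfl | hm0
    · have : yours 1 p (0 + 1) = {p 0} := e2
      rw [this]
      exact not_won_of_card (by simp)
    · exact h3 m (by omega) hm

end Pool.Agent.H89.Kap
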